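-- MP_c7efa6_co: a finite ordered set with the fixed point property whose iterated clique graphs
-- never collapse.
import Mathlib

set_option autoImplicit false

namespace Pool.Agent.Results.MP_c7efa6_co.Disproof

/-! ### The notions of the problem -/

/-- The comparability graph of an ordered set. -/
def compGraph (P : Type) [PartialOrder P] : SimpleGraph P where
  Adj x y := x < y ∨ y < x
  symm := ⟨fun _ _ h => h.symm⟩
  loopless := ⟨fun x h => by rcases h with h | h <;> exact lt_irrefl x h⟩

/-- The clique graph: its vertices are the maximal cliques (as sets of vertices), and two distinct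
maximal cliques are adjacent iff they share at least one vertex. -/
def cliqueGraph {V : Type} (G : SimpleGraph V) :
    SimpleGraph {s : Set V // Maximal G.IsClique s} where
  Adj s t := s ≠ t ∧ (s.1 ∩ t.1).Nonempty
  symm := ⟨fun s t h => ⟨h.1.symm, by rw [Set.inter_comm]; exact h.2⟩⟩
  loopless := ⟨fun _ h => h.1 rfl⟩

/-- The iterated clique graphs (a graph is a vertex type together with a simple graph on it). -/
def iterClique (G : Σ V : Type, SimpleGraph V) : ℕ → Σ V : Type, SimpleGraph V
  | 0 => G
  | n + 1 => ⟨_, cliqueGraph (iterClique G n).2⟩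

/-! ### Involutions moving every vertex to distance at least two -/

/-- An involutive automorphism which moves every vertex to a different non-adjacent vertex. -/
def Coaff {V : Type} (G : SimpleGraph V) : Prop :=
  ∃ δ : V → V, Function.Involutive δ ∧ (∀ x y, G.Adj x y → G.Adj (δ x) (δ y)) ∧
    ∀ x, δ x ≠ x ∧ ¬ G.Adj x (δ x)

theorem image_clique {V : Type} (G : SimpleGraph V) (δ : V → V)
    (h2 : ∀ x y, G.Adj x y → G.Adj (δ x) (δ y)) (s : Set V) (hs : G.IsClique s) :
    G.IsClique (δ '' s) := by
  rintro _ ⟨a, ha, rfl⟩ _ ⟨b, hb, rfl⟩ hab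
  exact h2 a b (hs ha hb (fun h => hab (by rw [h])))

theorem image_image_self {V : Type} (δ : V → V) (h1 : Function.Involutive δ) (s : Set V) :
    δ '' (δ '' s) = s := by
  rw [Set.image_image]
  simp [h1 _]

theorem image_maximal {V : Type} (G : SimpleGraph V) (δ : V → V) (h1 : Function.Involutive δ)
    (h2 : ∀ x y, G.Adj x y → G.Adj (δ x) (δ y)) (s : Set V) (hs : Maximal G.IsClique s) :
    Maximal G.IsClique (δ '' s) := by
  refine ⟨image_clique G δ h2 s hs.1, ?_⟩
  intro t ht hst
  have h3 : s ⊆ δ '' t := by
    rw [← image_image_self δ h1 s]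
    exact Set.image_mono hst
  have h4 := hs.2 (image_clique G δ h2 t ht) h3
  rw [← image_image_self δ h1 t]
  exact Set.image_mono h4

theorem coaff_step {V : Type} [Finite V] [Nonempty V] (G : SimpleGraph V) (h : Coaff G) :
    Nonempty {s : Set V // Maximal G.IsClique s} ∧ Coaff (cliqueGraph G) := by
  obtain ⟨δ, h1, h2, h3⟩ := h
  constructor
  · have h0 : G.IsClique (∅ : Set V) := Set.pairwise_empty _
    obtain ⟨m, -, hm⟩ := Finite.exists_le_maximal h0
    exact ⟨⟨m, hm⟩⟩
  · refine ⟨fun s => ⟨δ '' s.1, image_maximal G δ h1 h2 s.1 s.2⟩, ?_, ?_, ?_⟩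
    · intro s
      exact Subtype.ext (image_image_self δ h1 s.1)
    · rintro s t ⟨hst, x, hx1, hx2⟩
      refine ⟨fun h => hst ?_, δ x, ⟨x, hx1, rfl⟩, ⟨x, hx2, rfl⟩⟩
      have h4 : δ '' s.1 = δ '' t.1 := congrArg Subtype.val h
      apply Subtype.ext
      rw [← image_image_self δ h1 s.1, h4, image_image_self δ h1 t.1]
    · intro s
      have hdis : ¬ (s.1 ∩ (δ '' s.1)).Nonempty := by
        rintro ⟨_, hx, y, hy, rfl⟩
        exact (h3 y).2 (s.2.1 hy hx (h3 y).1.symm)
      have hne : s.1.Nonempty := by
        rw [Set.nonempty_iff_ne_empty]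
        intro h0
        obtain ⟨v⟩ := ‹Nonempty V›
        have h5 := s.2.2 (y := {v}) (by simp) (by rw [h0]; exact Set.empty_subset _)
        rw [h0] at h5
        exact h5 rfl
      refine ⟨fun h => hdis ?_, fun h => hdis h.2⟩
      have h4 : δ '' s.1 = s.1 := congrArg Subtype.val h
      rw [h4, Set.inter_self]
      exact hne

theorem iter_nontrivial {V : Type} [Finite V] [Nonempty V] (G : SimpleGraph V) (h : Coaff G)
    (n : ℕ) : Finite (iterClique ⟨V, G⟩ n).1 ∧ Nonempty (iterClique ⟨V, G⟩ n).1 ∧
      Coaff (iterClique ⟨V, G⟩ n).2 := by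
  induction n with
  | zero => exact ⟨‹_›, ‹_›, h⟩
  | succ n ih =>
    obtain ⟨h1, h2, h3⟩ := ih
    have := coaff_step _ h3
    refine ⟨?_, this.1, this.2⟩
    change Finite {s : Set (iterClique ⟨V, G⟩ n).1 // Maximal (iterClique ⟨V, G⟩ n).2.IsClique s}
    infer_instance

/-! ### A checker for the fixed point property -/

/-- `tbl.getD a 0` is a bit mask; join the masks of all `a` in the mask `m`. -/
def join : List ℕ → ℕ → ℕ
  | [], _ => 0
  | t :: ts, m => (if m.testBit 0 then t else 0) ||| join ts (m / 2)

theorem join_spec (tbl : List ℕ) (m a b : ℕ) (ha : m.testBit a = true)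
    (hb : (tbl.getD a 0).testBit b = true) : (join tbl m).testBit b = true := by
  induction tbl generalizing m a with
  | nil => simp at hb
  | cons t ts ih =>
    rw [join, Nat.testBit_or]
    cases a with
    | zero =>
      rw [if_pos ha]
      simp only [List.getD_cons_zero] at hb
      simp [hb]
    | succ a =>
      rw [List.getD_cons_succ] at hb
      rw [Nat.testBit_succ] at ha
      rw [ih (m / 2) a ha hb]
      simp

section Checker

variable (up dn : List ℕ)

/-- Arc consistency for one pair of comparable elements. -/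
def arc (D : List ℕ) (p : ℕ × ℕ) : List ℕ :=
  let D1 := D.set p.2 (D.getD p.2 0 &&& join up (D.getD p.1 0))
  D1.set p.1 (D1.getD p.1 0 &&& join dn (D1.getD p.2 0))

/-- `f` is compatible with the domains `D`. -/
def Comp (f : ℕ → ℕ) (D : List ℕ) : Prop := ∀ x < D.length, (D.getD x 0).testBit (f x) = true

theorem comp_set (f : ℕ → ℕ) (D : List ℕ) (hD : Comp f D) (x m : ℕ)
    (hm : x < D.length → m.testBit (f x) = true) : Comp f (D.set x m) := by
  intro y hy
  rw [List.length_set] at hy
  by_cases h : x = y
  · subst h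
    rw [List.getD_eq_getElem _ _ (by simpa using hy)]
    simpa using hm hy
  · have := hD y hy
    rw [List.getD_eq_getElem _ _ hy] at this
    rw [List.getD_eq_getElem _ _ (by simpa using hy), List.getElem_set_ne h]
    exact this

theorem comp_getD (f : ℕ → ℕ) (D : List ℕ) (hD : Comp f D) (x : ℕ) (hx : x < D.length) :
    (D.getD x 0).testBit (f x) = true := hD x hx

theorem comp_arc (f : ℕ → ℕ) (D : List ℕ) (hD : Comp f D) (p : ℕ × ℕ)
    (h1 : p.1 < D.length) (h2 : p.2 < D.length)
    (hu : (up.getD (f p.1) 0).testBit (f p.2) = true)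
    (hd : (dn.getD (f p.2) 0).testBit (f p.1) = true) : Comp f (arc up dn D p) := by
  have hD1 : Comp f (D.set p.2 (D.getD p.2 0 &&& join up (D.getD p.1 0))) := by
    apply comp_set f D hD
    intro _
    rw [Nat.testBit_and, hD _ h2, join_spec up _ (f p.1) (f p.2) (hD _ h1) hu]
    rfl
  apply comp_set f _ hD1
  intro _
  rw [Nat.testBit_and, hD1 _ (by simpa using h1),
    join_spec dn _ (f p.2) (f p.1) (hD1 _ (by simpa using h2)) hd]
  rfl

theorem arc_length (D : List ℕ) (p : ℕ × ℕ) : (arc up dn D p).length = D.length := by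
  simp [arc]

/-- One pass of arc consistency over all pairs. -/
def pass (R : List (ℕ × ℕ)) (D : List ℕ) : List ℕ := R.foldl (arc up dn) D

theorem comp_pass (f : ℕ → ℕ) (R : List (ℕ × ℕ)) (N : ℕ)
    (hR : ∀ p ∈ R, p.1 < N ∧ p.2 < N ∧ (up.getD (f p.1) 0).testBit (f p.2) = true ∧
      (dn.getD (f p.2) 0).testBit (f p.1) = true) (D : List ℕ) (hN : D.length = N)
    (hD : Comp f D) : Comp f (pass up dn R D) ∧ (pass up dn R D).length = N := by
  induction R generalizing D with
  | nil => exact ⟨hD, hN⟩
  | cons p R ih =>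
    have hp := hR p (by simp)
    exact ih (fun q hq => hR q (by simp [hq])) (arc up dn D p)
      (by rw [arc_length, hN])
      (comp_arc up dn f D hD p (by rw [hN]; exact hp.1) (by rw [hN]; exact hp.2.1) hp.2.2.1
        hp.2.2.2)

/-- Several passes. -/
def passes (R : List (ℕ × ℕ)) : ℕ → List ℕ → List ℕ
  | 0, D => D
  | k + 1, D => passes R k (pass up dn R D)

theorem comp_passes (f : ℕ → ℕ) (R : List (ℕ × ℕ)) (N : ℕ)
    (hR : ∀ p ∈ R, p.1 < N ∧ p.2 < N ∧ (up.getD (f p.1) 0).testBit (f p.2) = true ∧
      (dn.getD (f p.2) 0).testBit (f p.1) = true) (k : ℕ) (D : List ℕ) (hN : D.length = N)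
    (hD : Comp f D) : Comp f (passes up dn R k D) ∧ (passes up dn R k D).length = N := by
  induction k generalizing D with
  | zero => exact ⟨hD, hN⟩
  | succ k ih =>
    have := comp_pass up dn f R N hR D hN hD
    exact ih _ this.2 this.1

/-- The first element whose domain is not a power of two (if there is none: `0`). -/
def pick : List ℕ → ℕ
  | [] => 0
  | m :: ms => if m &&& (m - 1) = 0 then pick ms + 1 else 0

/-- Backtracking search; the value `true` certifies that no function is compatible with `D`. -/
def search (R : List (ℕ × ℕ)) (N : ℕ) : ℕ → List ℕ → Bool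
  | 0, _ => false
  | k + 1, D =>
    let D' := passes up dn R 5 D
    D'.any (fun m => m == 0) ||
      (decide (pick D' < N) && (List.range N).all (fun a =>
        !((D'.getD (pick D') 0).testBit a) || search R N k (D'.set (pick D') (1 <<< a))))

theorem search_spec (f : ℕ → ℕ) (R : List (ℕ × ℕ)) (N : ℕ) (hf : ∀ x < N, f x < N)
    (hR : ∀ p ∈ R, p.1 < N ∧ p.2 < N ∧ (up.getD (f p.1) 0).testBit (f p.2) = true ∧
      (dn.getD (f p.2) 0).testBit (f p.1) = true) (k : ℕ) (D : List ℕ) (hN : D.length = N)
    (hs : search up dn R N k D = true) : ¬ Comp f D := by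
  induction k generalizing D with
  | zero => simp [search] at hs
  | succ k ih =>
    intro hD
    obtain ⟨hD', hN'⟩ := comp_passes up dn f R N hR 5 D hN hD
    rw [search] at hs
    generalize passes up dn R 5 D = E at hs hD' hN'
    simp only [Bool.or_eq_true, Bool.and_eq_true, decide_eq_true_eq] at hs
    rcases hs with hs | ⟨hp, hs⟩
    · rw [List.any_eq_true] at hs
      obtain ⟨m, hm, hm0⟩ := hs
      obtain ⟨i, hi, rfl⟩ := List.getElem_of_mem hm
      have h1 := hD' i hi
      rw [List.getD_eq_getElem _ _ hi] at h1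
      simp only [beq_iff_eq] at hm0
      rw [hm0] at h1
      simp at h1
    · rw [List.all_eq_true] at hs
      have h1 := hs (f (pick E)) (by simpa using hf _ hp)
      have h2 := hD' (pick E) (by rw [hN']; exact hp)
      rw [h2] at h1
      simp only [Bool.not_true, Bool.false_or] at h1
      refine ih _ (by simpa using hN') h1 ?_
      apply comp_set f E hD'
      intro _
      simp [Nat.testBit_shiftLeft]

end Checker

/-! ### The ordered set -/

/-- Masks of the principal up-sets. -/
def upT : List ℕ := [43969, 38818, 26468, 6376, 18672, 32, 64, 128, 256, 512, 1824, 2240, 4256,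
  8512, 16480, 33408]

/-- Masks of the principal down-sets. -/
def dnT : List ℕ := [1, 2, 4, 8, 16, 21566, 26717, 39067, 9479, 34311, 1030, 2073, 4106, 8197,
  16404, 32771]

/-- The covering pairs. -/
def cov : List (ℕ × ℕ) := [(0, 11), (0, 13), (0, 15), (1, 10), (1, 12), (1, 15), (2, 10), (2, 13),
  (2, 14), (3, 11), (3, 12), (4, 11), (4, 14), (10, 5), (10, 8), (10, 9), (11, 6), (11, 7),
  (12, 5), (12, 7), (13, 6), (13, 8), (14, 5), (14, 6), (15, 7), (15, 9)]

/-- The underlying set of the example: sixteen elements. -/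
def P : Type := Fin 16

instance : Finite P := inferInstanceAs (Finite (Fin 16))
instance : Nonempty P := inferInstanceAs (Nonempty (Fin 16))

/-- The order relation of the example. -/
def leB (x y : Fin 16) : Bool := (upT.getD x.1 0).testBit y.1

theorem leB_refl : ∀ x : Fin 16, leB x x = true := by decide +kernel

theorem leB_trans : ∀ x y z : Fin 16, leB x y = true → leB y z = true → leB x z = true := by
  decide +kernel

theorem leB_antisymm : ∀ x y : Fin 16, leB x y = true → leB y x = true → x = y := by
  decide +kernel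

instance : PartialOrder P where
  le x y := leB x y = true
  le_refl := leB_refl
  le_trans := leB_trans
  le_antisymm := leB_antisymm

/-- The duality. -/
def dual (x : Fin 16) : Fin 16 := ![5, 6, 7, 8, 9, 0, 1, 2, 3, 4, 11, 10, 13, 12, 15, 14] x

theorem dual_dual : ∀ x : Fin 16, dual (dual x) = x := by decide +kernel

theorem dual_le : ∀ x y : Fin 16, leB x y = true → leB (dual y) (dual x) = true := by
  decide +kernel

theorem dual_ne : ∀ x : Fin 16, leB x (dual x) = false ∧ leB (dual x) x = false := by
  decide +kernel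

/-- The duality, as a map of the ordered set. -/
def dualP : P → P := dual

theorem dualP_lt (x y : P) (h : x < y) : dualP y < dualP x := by
  rw [lt_iff_le_and_ne] at h ⊢
  refine ⟨dual_le x y h.1, fun h2 => h.2 ?_⟩
  have h3 : dual (dual y) = dual (dual x) := congrArg dual h2
  have h4 : ∀ z : P, dual (dual z) = z := dual_dual
  rw [h4, h4] at h3
  exact h3.symm

theorem coaff_P : Coaff (compGraph P) := by
  refine ⟨dualP, dual_dual, ?_, ?_⟩
  · intro x y h
    rcases h with h | h
    · exact Or.inr (dualP_lt x y h)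
    · exact Or.inl (dualP_lt y x h)
  · intro x
    have h1 : leB x (dualP x) = false ∧ leB (dualP x) x = false := dual_ne x
    constructor
    · intro h
      rw [h, leB_refl x] at h1
      simp at h1
    · rintro (h | h)
      · have h2 : leB x (dualP x) = true := h.le
        rw [h1.1] at h2
        simp at h2
      · have h2 : leB (dualP x) x = true := h.le
        rw [h1.2] at h2
        simp at h2

/-- The initial domains: everything except the point itself. -/
def D0 : List ℕ := (List.range 16).map (fun i => 65535 - 2 ^ i)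

theorem search_true : search upT dnT cov 16 6 D0 = true := by decide +kernel

theorem cov_spec : ∀ p ∈ cov, ∃ (h1 : p.1 < 16) (h2 : p.2 < 16), leB ⟨p.1, h1⟩ ⟨p.2, h2⟩ = true := by
  decide +kernel

theorem dn_up : ∀ x y : Fin 16, leB x y = true → (dnT.getD y.1 0).testBit x.1 = true := by
  decide +kernel

theorem D0_spec : ∀ x y : Fin 16, x ≠ y → (D0.getD x.1 0).testBit y.1 = true := by
  decide +kernel

theorem fpp (f : P → P) (hf : Monotone f) : ∃ x, f x = x := by
  by_contra hcon
  push Not at hcon
  let g : Fin 16 → Fin 16 := f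
  let F : ℕ → ℕ := fun x => if h : x < 16 then (g ⟨x, h⟩).1 else 0
  have hF : ∀ x (h : x < 16), F x = (g ⟨x, h⟩).1 := fun x h => by simp [F, h]
  refine search_spec upT dnT F cov 16 ?_ ?_ 6 D0 (by decide) search_true ?_
  · intro x hx
    rw [hF x hx]
    exact (g ⟨x, hx⟩).2
  · intro p hp
    obtain ⟨h1, h2, h3⟩ := cov_spec p hp
    have h4 : leB (g ⟨p.1, h1⟩) (g ⟨p.2, h2⟩) = true := hf (a := (⟨p.1, h1⟩ : Fin 16))
      (b := (⟨p.2, h2⟩ : Fin 16)) h3
    refine ⟨h1, h2, ?_, ?_⟩
    · rw [hF _ h1, hF _ h2]
      exact h4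
    · rw [hF _ h1, hF _ h2]
      exact dn_up _ _ h4
  · intro x hx
    have hx' : x < 16 := by simpa [D0] using hx
    rw [hF x hx']
    exact D0_spec ⟨x, hx'⟩ (g ⟨x, hx'⟩) (fun h => hcon _ h.symm)

/-- There is a finite ordered set with the fixed point property all of whose iterated clique graphs
have at least two vertices. -/
theorem result : ∃ (P : Type) (_ : Finite P) (_ : PartialOrder P),
    (∀ f : P → P, Monotone f → ∃ x, f x = x) ∧
      ∀ n : ℕ, Nontrivial (iterClique ⟨P, compGraph P⟩ n).1 := by
  refine ⟨P, inferInstance, inferInstance, fpp, fun n => ?_⟩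
  obtain ⟨-, ⟨x⟩, δ, -, -, h3⟩ := iter_nontrivial (compGraph P) coaff_P n
  exact ⟨⟨x, δ x, (h3 x).1.symm⟩⟩

end Pool.Agent.Results.MP_c7efa6_co.Disproof
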